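import Pool.Agent.helper21.WB.Defs

/-! PART C, [C2]: rounding of matrices, counting small subsets. -/

set_option autoImplicit false
open Matrix MeasureTheory

namespace Pool.Agent.helper21.WB

namespace PC

/-- [C2] Rounding of matrices. -/
theorem exists_round (R δ : ℝ) (hR : 0 ≤ R) (hδ : 0 < δ) :
    ∃ (M : ℕ) (f : Mat → (I → I → Fin M)), (M : ℝ) ≤ 2 * R / δ + 3 ∧
      ∀ A B : Mat, (∀ i j, |A i j| ≤ R) → (∀ i j, |B i j| ≤ R) → f A = f B → fn (A - B) ≤ 5 * δ := by
  refine ⟨⌊2 * R / δ⌋₊ + 1, fun A i j => ⟨min ⌊(A i j + R) / δ⌋₊ ⌊2 * R / δ⌋₊, by omega⟩, ?_, ?_⟩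
  · push_cast
    have := Nat.floor_le (show 0 ≤ 2 * R / δ by positivity)
    linarith
  · intro A B hA hB hAB
    have key : ∀ i j, |(A - B) i j| ≤ δ := by
      intro i j
      have h1 := congrFun (congrFun hAB i) j
      simp only [Fin.mk.injEq] at h1
      have bd : ∀ C : Mat, |C i j| ≤ R → ⌊(C i j + R) / δ⌋₊ ≤ ⌊2 * R / δ⌋₊ := by
        intro C hC
        refine Nat.floor_le_floor ?_
        gcongr
        linarith [(abs_le.1 hC).2]
      rw [min_eq_left (bd A (hA i j)), min_eq_left (bd B (hB i j))] at h1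
      have pos : ∀ C : Mat, |C i j| ≤ R → 0 ≤ (C i j + R) / δ := by
        intro C hC
        have := (abs_le.1 hC).1
        exact div_nonneg (by linarith) hδ.le
      have a1 := Nat.floor_le (pos A (hA i j))
      have a2 := Nat.lt_floor_add_one ((A i j + R) / δ)
      have b1 := Nat.floor_le (pos B (hB i j))
      have b2 := Nat.lt_floor_add_one ((B i j + R) / δ)
      rw [h1] at a1 a2
      have e1 : (A i j + R) / δ - (B i j + R) / δ ≤ 1 := by linarith
      have e2 : (B i j + R) / δ - (A i j + R) / δ ≤ 1 := by linarith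
      have e3 : (A i j + R) / δ - (B i j + R) / δ = (A i j - B i j) / δ := by field_simp; ring
      have e4 : (B i j + R) / δ - (A i j + R) / δ = (B i j - A i j) / δ := by field_simp; ring
      rw [e3, div_le_one hδ] at e1
      rw [e4, div_le_one hδ] at e2
      rw [Matrix.sub_apply, abs_le]
      constructor <;> linarith
    unfold fn
    rw [show 5 * δ = Real.sqrt ((5 * δ) ^ 2) from (Real.sqrt_sq (by positivity)).symm]
    apply Real.sqrt_le_sqrt
    calc ∑ i, ∑ j, (A - B) i j ^ 2 ≤ ∑ _i : I, ∑ _j : I, δ ^ 2 := by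
          refine Finset.sum_le_sum (fun i _ => Finset.sum_le_sum (fun j _ => ?_))
          rw [← sq_abs]
          have := abs_nonneg ((A - B) i j)
          have := key i j
          gcongr
      _ = (5 * δ) ^ 2 := by
          simp only [Finset.sum_const, Finset.card_univ, Fintype.card_sum, Fintype.card_fin,
            Fintype.card_unit, nsmul_eq_mul]
          push_cast
          ring

/-- [C2] Counting small subsets. -/
theorem card_small_sets {α : Type} [Fintype α] [DecidableEq α] (x t : ℝ) (ht : 0 < t) (ht1 : t ≤ 1) :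
    (Fintype.card {s : Finset α // (s.card : ℝ) ≤ x} : ℝ) ≤
      t ^ (-x) * Real.exp (t * (Fintype.card α : ℝ)) := by
  classical
  rw [Fintype.card_subtype]
  have h1 : ((Finset.univ.filter (fun s : Finset α => (s.card : ℝ) ≤ x)).card : ℝ) ≤
      ∑ s : Finset α, t ^ (-x) * t ^ s.card := by
    rw [Finset.card_eq_sum_ones, Nat.cast_sum]
    refine le_trans (Finset.sum_le_sum (fun s hs => ?_))
      (Finset.sum_le_sum_of_subset_of_nonneg (f := fun s : Finset α => t ^ (-x) * t ^ s.card)
        (Finset.filter_subset _ _) (fun s _ _ => by positivity))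
    rw [Finset.mem_filter] at hs
    rw [Nat.cast_one, ← Real.rpow_natCast, ← Real.rpow_add ht]
    exact Real.one_le_rpow_of_pos_of_le_one_of_nonpos ht ht1 (by linarith [hs.2])
  refine h1.trans ?_
  rw [← Finset.mul_sum]
  refine mul_le_mul_of_nonneg_left ?_ (by positivity)
  have h2 : ∑ s : Finset α, t ^ s.card = (t + 1) ^ Fintype.card α := by
    have := Finset.sum_pow_mul_eq_add_pow t 1 (Finset.univ : Finset α)
    rw [Finset.powerset_univ, Finset.card_univ] at this
    rw [← this]
    exact Finset.sum_congr rfl (fun s _ => by rw [one_pow, mul_one])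
  rw [h2]
  calc (t + 1) ^ Fintype.card α ≤ (Real.exp t) ^ Fintype.card α := by
        have := Real.add_one_le_exp t
        gcongr
    _ = Real.exp (t * (Fintype.card α : ℝ)) := by rw [← Real.exp_nat_mul]; congr 1; ring

end PC

end Pool.Agent.helper21.WB
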