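import Mathlib

/-! PART C, [C3]: the numerical estimate. -/

set_option autoImplicit false

namespace Pool.Agent.helper21.WB

namespace PC

/-- [C3] The numerical estimate.  `L`: number of labels of good edges, `Ce`: number of cells,
`Fi`: number of fine labels. -/
theorem numeric (K₂ : ℝ) (hK₂ : 1 ≤ K₂) : ∃ K₁ : ℝ, 0 < K₁ ∧ ∀ D Cn L c : ℝ, 1 ≤ D → 1 ≤ Cn → 1 ≤ L →
    1 ≤ c → ∃ C : ℝ, 1 ≤ C ∧ ∀ V : ℝ, C ≤ V → ∀ β : ℝ, 0 ≤ β → ∀ n : ℕ, (n : ℝ) ≤ Cn * V →
    ∀ Ce Fi : ℕ, (Ce : ℝ) ≤ K₂ * Real.exp (K₂ * D) → (Fi : ℝ) ≤ (c * V ^ 8) ^ 25 →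
    ∀ t₁ t₂ : ℝ, t₁ = 1 / (Cn ^ 2 * L * V) → t₂ = 1 / ((n : ℝ) ^ 2 * (1 + Fi) ^ (Ce + 3) + 1) →
      (2 : ℝ) ^ n * (t₁ ^ (-(V / 5)) * Real.exp (t₁ * ((n : ℝ) ^ 2 * L))) *
        (t₂ ^ (-(β * V)) * Real.exp (t₂ * ((n : ℝ) ^ 2 * (1 + Fi) ^ (Ce + 3)))) ≤
      Real.exp ((1 / 5 + K₁ * Real.exp (K₂ * D) * β) * V * Real.log V + C * (1 + β) * V) := by
  refine ⟨802 * K₂, by linarith, fun D Cn L c hD hCn hL hc => ?_⟩
  have hE1 : (1:ℝ) ≤ Real.exp (K₂ * D) := Real.one_le_exp (by nlinarith)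
  have hlc : 0 ≤ Real.log c := Real.log_nonneg hc
  have hlCn : 0 ≤ Real.log Cn := Real.log_nonneg hCn
  have hlL : 0 ≤ Real.log L := Real.log_nonneg hL
  set W := K₂ * Real.exp (K₂ * D) with hW
  have hW1 : 1 ≤ W := by rw [hW]; nlinarith
  refine ⟨Real.exp 1 + Cn + 2 + (2 * Real.log Cn + Real.log L) +
    (1 + 2 * Real.log Cn + 4 * W * (1 + 25 * Real.log c)), ?_, ?_⟩
  · have := Real.exp_pos 1
    have : 0 ≤ 4 * W * (1 + 25 * Real.log c) := by positivity
    linarith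
  intro V hV β hβ n hn Ce Fi hCe hFi t₁ t₂ ht₁ ht₂
  set CC := Real.exp 1 + Cn + 2 + (2 * Real.log Cn + Real.log L) +
    (1 + 2 * Real.log Cn + 4 * W * (1 + 25 * Real.log c)) with hCC
  have hpos4 : 0 ≤ 4 * W * (1 + 25 * Real.log c) := by positivity
  have hVe : Real.exp 1 ≤ V := by linarith
  have hV1 : 1 ≤ V := by have := Real.add_one_le_exp 1; linarith
  have hV0 : 0 < V := by linarith
  have hlV : 1 ≤ Real.log V := by rw [Real.le_log_iff_exp_le hV0]; exact hVe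
  have ht₁0 : 0 < t₁ := by rw [ht₁]; positivity
  set Q : ℝ := (n : ℝ) ^ 2 * (1 + Fi) ^ (Ce + 3) with hQ
  have hQ0 : 0 ≤ Q := by positivity
  have ht₂0 : 0 < t₂ := by rw [ht₂]; positivity
  -- rewrite everything as an exponential
  have e1 : (2:ℝ) ^ n = Real.exp (n * Real.log 2) := by
    rw [mul_comm, Real.exp_mul, Real.exp_log (by norm_num), Real.rpow_natCast]
  have e2 : t₁ ^ (-(V / 5)) = Real.exp (V / 5 * Real.log (Cn ^ 2 * L * V)) := by
    rw [Real.rpow_def_of_pos ht₁0, ht₁, one_div, Real.log_inv]; congr 1; ring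
  have e3 : t₂ ^ (-(β * V)) = Real.exp (β * V * Real.log (Q + 1)) := by
    rw [Real.rpow_def_of_pos ht₂0, ht₂, one_div, Real.log_inv]; congr 1; ring
  rw [e1, e2, e3, ← Real.exp_add, ← Real.exp_add, ← Real.exp_add, ← Real.exp_add]
  apply Real.exp_le_exp.2
  -- the five terms
  have hl2 : Real.log 2 ≤ 1 := by
    have := Real.log_two_lt_d9; linarith
  have b1 : (n : ℝ) * Real.log 2 ≤ Cn * V := by
    have h0 : (0:ℝ) ≤ n := Nat.cast_nonneg _
    calc (n : ℝ) * Real.log 2 ≤ n * 1 := by gcongr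
      _ ≤ Cn * V := by linarith
  have b2 : V / 5 * Real.log (Cn ^ 2 * L * V) ≤
      1 / 5 * V * Real.log V + (2 * Real.log Cn + Real.log L) * V := by
    rw [Real.log_mul (by positivity) (by positivity), Real.log_mul (by positivity) (by positivity),
      Real.log_pow]
    push_cast
    nlinarith
  have b3 : t₁ * ((n : ℝ) ^ 2 * L) ≤ V := by
    rw [ht₁, one_div, inv_mul_le_iff₀ (by positivity)]
    have h0 : (0:ℝ) ≤ n := Nat.cast_nonneg _
    calc (n : ℝ) ^ 2 * L ≤ (Cn * V) ^ 2 * L := by gcongr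
      _ = Cn ^ 2 * L * V * V := by ring
  have b5 : t₂ * Q ≤ V := by
    rw [ht₂, one_div, inv_mul_le_iff₀ (by positivity)]
    nlinarith
  have b4 : Real.log (Q + 1) ≤ 802 * W * Real.log V +
      (1 + 2 * Real.log Cn + 4 * W * (1 + 25 * Real.log c)) := by
    have hcV : 1 ≤ c * V ^ 8 := by
      have : 1 ≤ V ^ 8 := one_le_pow₀ hV1
      nlinarith
    have hcV25 : 1 ≤ (c * V ^ 8) ^ 25 := one_le_pow₀ hcV
    have h1 : Q + 1 ≤ 2 * ((Cn * V) ^ 2 * (2 * (c * V ^ 8) ^ 25) ^ (Ce + 3)) := by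
      have h0 : (0:ℝ) ≤ n := Nat.cast_nonneg _
      have h0' : (0:ℝ) ≤ Fi := Nat.cast_nonneg _
      have h2 : Q ≤ (Cn * V) ^ 2 * (2 * (c * V ^ 8) ^ 25) ^ (Ce + 3) := by
        rw [hQ]
        gcongr
        linarith
      have h3 : 1 ≤ (Cn * V) ^ 2 * (2 * (c * V ^ 8) ^ 25) ^ (Ce + 3) := by
        have h4 : 1 ≤ (Cn * V) ^ 2 := one_le_pow₀ (by nlinarith)
        have h5 : 1 ≤ (2 * (c * V ^ 8) ^ 25) ^ (Ce + 3) := one_le_pow₀ (by linarith)
        nlinarith
      linarith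
    have h2 : Real.log (Q + 1) ≤ Real.log 2 + (2 * (Real.log Cn + Real.log V) +
        (Ce + 3) * (Real.log 2 + 25 * (Real.log c + 8 * Real.log V))) := by
      refine (Real.log_le_log (by positivity) h1).trans (le_of_eq ?_)
      rw [Real.log_mul (by norm_num) (by positivity), Real.log_mul (by positivity) (by positivity),
        Real.log_pow, Real.log_pow, Real.log_mul (by positivity) (by positivity),
        Real.log_mul (by norm_num) (by positivity), Real.log_pow,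
        Real.log_mul (by positivity) (by positivity), Real.log_pow]
      push_cast
      ring
    have hCe3 : (Ce : ℝ) + 3 ≤ 4 * W := by linarith
    have h3 : ((Ce : ℝ) + 3) * (Real.log 2 + 25 * (Real.log c + 8 * Real.log V)) ≤
        4 * W * (1 + 25 * (Real.log c + 8 * Real.log V)) := by
      have h0 : (0:ℝ) ≤ (Ce : ℝ) + 3 := by positivity
      have : 0 ≤ Real.log 2 := Real.log_nonneg (by norm_num)
      gcongr
    nlinarith
  have b4' : β * V * Real.log (Q + 1) ≤ β * V * (802 * W * Real.log V +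
      (1 + 2 * Real.log Cn + 4 * W * (1 + 25 * Real.log c))) := by gcongr
  have hfin : Cn * V + (1 / 5 * V * Real.log V + (2 * Real.log Cn + Real.log L) * V) + V +
      β * V * (802 * W * Real.log V + (1 + 2 * Real.log Cn + 4 * W * (1 + 25 * Real.log c))) + V ≤
      (1 / 5 + 802 * K₂ * Real.exp (K₂ * D) * β) * V * Real.log V + CC * (1 + β) * V := by
    have h1 : 0 ≤ V * Real.exp 1 := by positivity
    have h2 : 0 ≤ β * V := by positivity
    have h3 : 0 ≤ Cn + 2 + (2 * Real.log Cn + Real.log L) + Real.exp 1 := by positivity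
    have h4 : 0 ≤ 1 + 2 * Real.log Cn + 4 * W * (1 + 25 * Real.log c) := by positivity
    have e : (1 / 5 + 802 * K₂ * Real.exp (K₂ * D) * β) * V * Real.log V + CC * (1 + β) * V -
      (Cn * V + (1 / 5 * V * Real.log V + (2 * Real.log Cn + Real.log L) * V) + V +
      β * V * (802 * W * Real.log V + (1 + 2 * Real.log Cn + 4 * W * (1 + 25 * Real.log c))) + V) =
      V * Real.exp 1 + V * (1 + 2 * Real.log Cn + 4 * W * (1 + 25 * Real.log c)) +
      β * V * (Cn + 2 + (2 * Real.log Cn + Real.log L) + Real.exp 1) := by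
      rw [hCC, hW]; ring
    have h5 := mul_nonneg h2 h3
    have h6 := mul_nonneg hV0.le h4
    linarith
  linarith

end PC

end Pool.Agent.helper21.WB
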