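import Pool.Agent.helper47.WB.CD
import Pool.Agent.helper47.WB.C2
import Pool.Agent.helper47.WB.C3

/-! PART C, counting nets up to closeness. -/

set_option autoImplicit false
open Matrix MeasureTheory

namespace Pool.Agent.helper21.WB

namespace PC

theorem card_lab (M : ℕ) : Fintype.card (I → I → Fin M) = M ^ 25 := by
  simp only [Fintype.card_pi, Finset.prod_const, Finset.card_univ, Fintype.card_fin,
    Fintype.card_sum, Fintype.card_unit]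
  rw [← pow_mul]

theorem card_val_le (M₁ M₂ : ℕ) :
    Fintype.card (Val M₁ M₂) ≤ (1 + M₂ ^ 25) ^ (M₁ ^ 25 + 3) := by
  have e0 : ∀ M : ℕ, Nat.card (I → I → Fin M) = M ^ 25 := fun M => by
    rw [Nat.card_eq_fintype_card, card_lab]
  have e : Nat.card (Val M₁ M₂) = (M₂ ^ 25 + 1) ^ (M₁ ^ 25) * (M₂ ^ 25) ^ 3 := by
    unfold Val
    rw [Nat.card_prod, Nat.card_fun (α := I → I → Fin M₁), Finite.card_option, e0, e0,
      Nat.card_fun (α := Fin 3), e0, Nat.card_eq_fintype_card (α := Fin 3), Fintype.card_fin]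
  rw [← Nat.card_eq_fintype_card, e, pow_add, add_comm 1]
  exact Nat.mul_le_mul_left _ (Nat.pow_le_pow_left (Nat.le_succ _) _)

/-- counting codes -/
theorem card_codes {ι : Type} [Fintype ι] {n M₁ M₂ M₃ : ℕ} (x y t₁ t₂ L : ℝ)
    (ht₁ : 0 < t₁) (ht₁' : t₁ ≤ 1) (ht₂ : 0 < t₂) (ht₂' : t₂ ≤ 1) (hL : (M₃ : ℝ) ^ 25 ≤ L)
    (g : ι → Finset (Fin n)) (e : ι → Finset (Fin n × Fin n × (I → I → Fin M₃)))
    (b : ι → Finset (Fin n × Fin n × Val M₁ M₂)) (he : ∀ i, ((e i).card : ℝ) ≤ x)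
    (hb : ∀ i, ((b i).card : ℝ) ≤ y)
    (hinj : ∀ i j, g i = g j → e i = e j → b i = b j → i = j) :
    (Fintype.card ι : ℝ) ≤ (2 : ℝ) ^ n * (t₁ ^ (-x) * Real.exp (t₁ * ((n : ℝ) ^ 2 * L))) *
      (t₂ ^ (-y) * Real.exp (t₂ * ((n : ℝ) ^ 2 * (1 + ((M₂ ^ 25 : ℕ) : ℝ)) ^ (M₁ ^ 25 + 3)))) := by
  classical
  let F : ι → Finset (Fin n) ×
      {s : Finset (Fin n × Fin n × (I → I → Fin M₃)) // (s.card : ℝ) ≤ x} ×
      {s : Finset (Fin n × Fin n × Val M₁ M₂) // (s.card : ℝ) ≤ y} :=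
    fun i => (g i, ⟨e i, he i⟩, ⟨b i, hb i⟩)
  have hF : Function.Injective F := by
    intro i j hij
    simp only [F, Prod.mk.injEq, Subtype.mk.injEq] at hij
    exact hinj i j hij.1 hij.2.1 hij.2.2
  have h1 := Fintype.card_le_of_injective F hF
  rw [Fintype.card_prod, Fintype.card_prod, Fintype.card_finset, Fintype.card_fin] at h1
  have h2 : (Fintype.card ι : ℝ) ≤ (2:ℝ) ^ n *
      ((Fintype.card {s : Finset (Fin n × Fin n × (I → I → Fin M₃)) // (s.card : ℝ) ≤ x} : ℝ) *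
      (Fintype.card {s : Finset (Fin n × Fin n × Val M₁ M₂) // (s.card : ℝ) ≤ y} : ℝ)) := by
    exact_mod_cast h1
  refine h2.trans ?_
  have h3 := card_small_sets (α := Fin n × Fin n × (I → I → Fin M₃)) x t₁ ht₁ ht₁'
  have h4 := card_small_sets (α := Fin n × Fin n × Val M₁ M₂) y t₂ ht₂ ht₂'
  have c3 : (Fintype.card (Fin n × Fin n × (I → I → Fin M₃)) : ℝ) ≤ (n : ℝ) ^ 2 * L := by
    rw [Fintype.card_prod, Fintype.card_prod, card_lab, Fintype.card_fin]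
    push_cast
    calc (n : ℝ) * (n * (M₃ : ℝ) ^ 25) = (n : ℝ) ^ 2 * (M₃ : ℝ) ^ 25 := by ring
      _ ≤ (n : ℝ) ^ 2 * L := by gcongr
  have c4 : (Fintype.card (Fin n × Fin n × Val M₁ M₂) : ℝ) ≤
      (n : ℝ) ^ 2 * (1 + ((M₂ ^ 25 : ℕ) : ℝ)) ^ (M₁ ^ 25 + 3) := by
    rw [Fintype.card_prod, Fintype.card_prod, Fintype.card_fin]
    have := card_val_le M₁ M₂
    have h5 : (Fintype.card (Val M₁ M₂) : ℝ) ≤ (1 + ((M₂ ^ 25 : ℕ) : ℝ)) ^ (M₁ ^ 25 + 3) := by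
      exact_mod_cast this
    push_cast at h5 ⊢
    calc (n : ℝ) * (n * (Fintype.card (Val M₁ M₂) : ℝ)) =
          (n : ℝ) ^ 2 * (Fintype.card (Val M₁ M₂) : ℝ) := by ring
      _ ≤ _ := by gcongr
  rw [mul_assoc]
  have h5 : (0:ℝ) < (2:ℝ) ^ n := by positivity
  refine mul_le_mul_of_nonneg_left ?_ h5.le
  refine mul_le_mul ?_ ?_ (Nat.cast_nonneg _) (by positivity)
  · refine h3.trans (mul_le_mul_of_nonneg_left (Real.exp_le_exp.2 ?_) (by positivity))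
    gcongr
  · refine h4.trans (mul_le_mul_of_nonneg_left (Real.exp_le_exp.2 ?_) (by positivity))
    gcongr

end PC

open PC in
/-- [C] Counting nets up to closeness, given the statement of `small_words`. -/
theorem card_nets_of (small_words : SmallWords) : ∃ K₀ K₁ : ℝ, 0 < K₀ ∧ 0 < K₁ ∧ ∃ η₀ : ℝ, 0 < η₀ ∧ ∀ η : ℝ, 0 < η → η ≤ η₀ →
    ∀ D : ℝ, 1 ≤ D → ∀ ρ cb Cn : ℝ, 0 < ρ → 0 < cb → 1 ≤ Cn → ∃ C : ℝ, 1 ≤ C ∧
    ∀ V : ℝ, C ≤ V → ∀ β : ℝ, 0 ≤ β → ∀ n : ℕ, (n : ℝ) ≤ Cn * V →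
    ∀ (ι : Type) [Fintype ι] (Γ : ι → Subgroup GLI) (N : ∀ i, Net (Γ i) η D (1 / (Cn * V) ^ 2) (10 * D) n),
      (∀ i, Disc (Γ i)) →
      (∀ i, ((N i).E1.ncard : ℝ) ≤ V / 5) →
      (∀ i, ((N i).B.ncard : ℝ) ≤ β * V) →
      (∀ i j, i ≠ j → ¬ Close (N i) (N j) ρ (cb * (1 / (Cn * V) ^ 2))) →
      (Fintype.card ι : ℝ) ≤
        Real.exp ((1 / 5 + K₁ * Real.exp (K₀ * D) * β) * V * Real.log V + C * (1 + β) * V) := by
  obtain ⟨θ, Cw, hθ, hCw, hwords⟩ := exists_words small_words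
  set K₂ : ℝ := max ((90 / θ + 3) ^ 25) 50 with hK₂
  have hK₂50 : 50 ≤ K₂ := le_max_right _ _
  obtain ⟨K₁, hK₁, hnum⟩ := numeric K₂ (by linarith)
  refine ⟨K₂, K₁, by linarith, hK₁, 1, one_pos, fun η _ _ D hD ρ cb Cn hρ hcb hCn => ?_⟩
  have hE : (1:ℝ) ≤ Real.exp D := Real.one_le_exp (by linarith)
  have hR : (0:ℝ) ≤ 3 * Real.exp D := by positivity
  -- coarse cells
  obtain ⟨M₁, f₁, hM₁, hf₁⟩ := exists_round (3 * Real.exp D) (θ / (3 * Real.exp D) / 5) hR (by positivity)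
  have hM₁' : (M₁ : ℝ) ≤ (90 / θ + 3) * Real.exp D ^ 2 := by
    refine hM₁.trans ?_
    have e : 2 * (3 * Real.exp D) / (θ / (3 * Real.exp D) / 5) = 90 / θ * Real.exp D ^ 2 := by
      field_simp; ring
    rw [e]
    nlinarith
  have hCe : ((M₁ ^ 25 : ℕ) : ℝ) ≤ K₂ * Real.exp (K₂ * D) := by
    push_cast
    calc (M₁ : ℝ) ^ 25 ≤ ((90 / θ + 3) * Real.exp D ^ 2) ^ 25 := by gcongr
      _ = (90 / θ + 3) ^ 25 * Real.exp (50 * D) := by
          rw [mul_pow, ← pow_mul, ← Real.exp_nat_mul]; norm_num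
      _ ≤ K₂ * Real.exp (K₂ * D) := by
          have h1 : (90 / θ + 3) ^ 25 ≤ K₂ := le_max_left _ _
          gcongr
  -- labels of good edges
  set m : ℕ := ⌊20 * D⌋₊ + 1 with hm
  have hm0 : 20 * D < m := by rw [hm]; push_cast; exact Nat.lt_floor_add_one _
  set r₀ : ℝ := min ρ 1 / (9 * Real.exp D) ^ m with hr₀
  have hr₀0 : 0 < r₀ := by
    have : 0 < min ρ 1 := lt_min hρ one_pos
    positivity
  have hmr : (9 * Real.exp D) ^ m * r₀ = min ρ 1 := by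
    rw [hr₀]; field_simp
  obtain ⟨M₃, f₃, -, hf₃⟩ := exists_round (3 * Real.exp D) (r₀ / 5) hR (by positivity)
  set L : ℝ := (M₃ : ℝ) ^ 25 + 1 with hL
  have hL1 : 1 ≤ L := by rw [hL]; have : (0:ℝ) ≤ (M₃ : ℝ) ^ 25 := by positivity
                         linarith
  -- fine labels
  set A : ℝ := 3000 * Real.exp D * Cw + 20 + 100 * Cw with hA
  have hA0 : 0 < A := by positivity
  set c₂ : ℝ := min r₀ (min cb 1) / A with hc₂
  have hmin : 0 < min r₀ (min cb 1) := lt_min hr₀0 (lt_min hcb one_pos)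
  have hc₂0 : 0 < c₂ := by positivity
  have hc₂A : c₂ * A = min r₀ (min cb 1) := by rw [hc₂]; field_simp
  set c : ℝ := (30 * Real.exp D / c₂ + 3) * Cn ^ 8 with hc
  have hc1 : 1 ≤ c := by
    rw [hc]
    have h1 : 0 ≤ 30 * Real.exp D / c₂ := by positivity
    have h2 : 1 ≤ Cn ^ 8 := one_le_pow₀ hCn
    nlinarith
  obtain ⟨C, hC1, hnum⟩ := hnum D Cn L c hD hCn hL1 hc1
  refine ⟨C, hC1, fun V hV β hβ n hn => ?_⟩
  have hV1 : 1 ≤ V := hC1.trans hV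
  have hCnV : 1 ≤ Cn * V := by nlinarith
  generalize hs' : 1 / (Cn * V) ^ 2 = s
  have hs := hs'.symm
  intro ι _ Γ N hΓ hE1 hB hcl
  have hs0 : 0 < s := by rw [hs]; positivity
  have hs1 : s ≤ 1 := by
    rw [hs, div_le_one (by positivity)]
    exact one_le_pow₀ hCnV
  set r : ℝ := c₂ * s ^ 4 with hr
  have hr0 : 0 < r := by positivity
  set Lw : ℝ := Cw / s ^ 3 with hLw
  have hLw0 : 0 < Lw := by positivity
  have hLr : Lw * r = Cw * c₂ * s := by rw [hLw, hr]; field_simp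
  have hs4 : s ^ 4 ≤ s := by
    calc s ^ 4 = s ^ 3 * s := by ring
      _ ≤ 1 * s := by
        have : s ^ 3 ≤ 1 := pow_le_one₀ hs0.le hs1
        gcongr
      _ = s := one_mul _
  have hb : 3 * Real.exp D * (1000 * Lw * r) + 20 * r ≤ min r₀ (min cb 1) * s := by
    calc 3 * Real.exp D * (1000 * Lw * r) + 20 * r
        = 3000 * Real.exp D * (Lw * r) + 20 * r := by ring
      _ = 3000 * Real.exp D * (Cw * c₂ * s) + 20 * (c₂ * s ^ 4) := by rw [hLr, hr]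
      _ ≤ 3000 * Real.exp D * (Cw * c₂ * s) + 20 * (c₂ * s) + 100 * Cw * (c₂ * s) := by
          have : 0 ≤ 100 * Cw * (c₂ * s) := by positivity
          have : 20 * (c₂ * s ^ 4) ≤ 20 * (c₂ * s) := by gcongr
          linarith
      _ = (c₂ * A) * s := by rw [hA]; ring
      _ = min r₀ (min cb 1) * s := by rw [hc₂A]
  have hb0 : 3 * Real.exp D * (1000 * Lw * r) + 20 * r ≤ r₀ := by
    refine hb.trans ?_
    calc min r₀ (min cb 1) * s ≤ r₀ * 1 := by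
          have := min_le_left r₀ (min cb 1)
          gcongr
      _ = r₀ := mul_one _
  have hb1 : 3 * Real.exp D * (1000 * Lw * r) + 20 * r ≤ cb * s := by
    refine hb.trans ?_
    have : min r₀ (min cb 1) ≤ cb := (min_le_right _ _).trans (min_le_left _ _)
    gcongr
  have hL100 : 100 * Lw * r ≤ 1 := by
    calc 100 * Lw * r = 100 * Cw * (c₂ * s) := by rw [mul_assoc, hLr]; ring
      _ ≤ (c₂ * A) * s := by
          rw [hA]
          have : 0 ≤ (3000 * Real.exp D * Cw + 20) * (c₂ * s) := by positivity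
          nlinarith
      _ = min r₀ (min cb 1) * s := by rw [hc₂A]
      _ ≤ 1 * 1 := by
          have : min r₀ (min cb 1) ≤ 1 := (min_le_right _ _).trans (min_le_right _ _)
          gcongr
      _ = 1 := one_mul _
  obtain ⟨M₂, f₂, hM₂, hf₂⟩ := exists_round (3 * Real.exp D) (r / 5) hR (by positivity)
  have hM₂' : (M₂ : ℝ) ≤ c * V ^ 8 := by
    refine hM₂.trans ?_
    have e : 2 * (3 * Real.exp D) / (r / 5) = 30 * Real.exp D / c₂ * (Cn * V) ^ 8 := by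
      rw [hr, hs]; field_simp; ring
    rw [e, hc]
    have h1 : 1 ≤ (Cn * V) ^ 8 := one_le_pow₀ hCnV
    calc 30 * Real.exp D / c₂ * (Cn * V) ^ 8 + 3 ≤
          30 * Real.exp D / c₂ * (Cn * V) ^ 8 + 3 * (Cn * V) ^ 8 := by linarith
      _ = (30 * Real.exp D / c₂ + 3) * Cn ^ 8 * V ^ 8 := by ring
  have hFi : ((M₂ ^ 25 : ℕ) : ℝ) ≤ (c * V ^ 8) ^ 25 := by push_cast; gcongr
  -- the data
  have hdata : ∀ i, Nonempty (Data (N i) θ Lw M₁ f₁) := fun i =>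
    exists_data (N i) f₁ (hwords (Γ i) (hΓ i) η D s (10 * D) n (N i) hs0 hs1)
  have d : ∀ i, Data (N i) θ Lw M₁ f₁ := fun i => (hdata i).some
  have e5 : ∀ x : ℝ, 5 * (x / 5) = x := fun x => by ring
  have hmatch : ∀ i j, (N i).good = (N j).good → (N i).codeE (hΓ i) f₃ = (N j).codeE (hΓ j) f₃ →
      (d i).codeB f₂ = (d j).codeB f₂ → CloseTo (N i) (N j) ρ (cb * s) := by
    intro i j h1 h2 h3
    have M : Match (N i) (N j) r₀ r θ Lw := by
      refine match_of_code (f₁ := f₁) (f₂ := f₂) (f₃ := f₃) (hΓ i) (hΓ j) hD ?_ ?_ ?_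
        (d i) (d j) h1 h2 h3
      · intro A B hA hB hAB
        have := hf₁ A B hA hB hAB
        rwa [e5] at this
      · intro A B hA hB hAB
        have := hf₂ A B hA hB hAB
        rwa [e5] at this
      · intro A B hA hB hAB
        have := hf₃ A B hA hB hAB
        rwa [e5] at this
    exact M.closeTo (hΓ i) (hΓ j) hr0.le (by linarith) (by linarith) hLw0.le hL100 hb0 hb1 m hm0
      (by rw [hmr]; exact min_le_right _ _) (by rw [hmr]; exact min_le_left _ _)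
  have ht₁ : 0 < 1 / (Cn ^ 2 * L * V) := by positivity
  have ht₁' : 1 / (Cn ^ 2 * L * V) ≤ 1 := by
    rw [div_le_one (by positivity)]
    have h1 : 1 ≤ Cn ^ 2 := one_le_pow₀ hCn
    have h2 : 1 ≤ Cn ^ 2 * L := by nlinarith
    nlinarith
  have hQ0 : 0 ≤ (n : ℝ) ^ 2 * (1 + ((M₂ ^ 25 : ℕ) : ℝ)) ^ (M₁ ^ 25 + 3) := by positivity
  have ht₂ : 0 < 1 / ((n : ℝ) ^ 2 * (1 + ((M₂ ^ 25 : ℕ) : ℝ)) ^ (M₁ ^ 25 + 3) + 1) := by positivity
  have ht₂' : 1 / ((n : ℝ) ^ 2 * (1 + ((M₂ ^ 25 : ℕ) : ℝ)) ^ (M₁ ^ 25 + 3) + 1) ≤ 1 := by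
    rw [div_le_one (by positivity)]; linarith
  refine (card_codes (ι := ι) (V / 5) (β * V) _ _ L ht₁ ht₁' ht₂ ht₂' (by rw [hL]; linarith)
    (fun i => (N i).good) (fun i => (N i).codeE (hΓ i) f₃) (fun i => (d i).codeB f₂) ?_ ?_ ?_).trans
    (hnum V hV β hβ n hn (M₁ ^ 25) (M₂ ^ 25) hCe hFi _ _ rfl rfl)
  · intro i
    exact (Nat.cast_le.2 ((N i).card_codeE (hΓ i) f₃)).trans (hE1 i)
  · intro i
    exact (Nat.cast_le.2 ((d i).card_codeB f₂)).trans (hB i)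
  · intro i j h1 h2 h3
    by_contra hij
    exact hcl i j hij ⟨hmatch i j h1 h2 h3, hmatch j i h1.symm h2.symm h3.symm⟩

end Pool.Agent.helper21.WB
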