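import Pool.Agent.helper21.WB.Basic
import Pool.Agent.helper19.WB.B3a
import Pool.Agent.helper19.WB.B5a
import Pool.Agent.helper26.WB.B3b

/-! PART C, [C1]: words with close letters and bounded prefixes have close values. -/

set_option autoImplicit false
open Matrix MeasureTheory

namespace Pool.Agent.helper21.WB

namespace PC

/-- evaluation of a word in three letters and their inverses -/
def wd (a : Fin 3 → GLI) (l : List (Fin 3 × Bool)) : GLI :=
  (l.map (fun e => if e.2 then a e.1 else (a e.1)⁻¹)).prod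

/-- `g ↦ g⁻¹` is isometric for `fn` on `O^+(4,1)` -/
theorem fn_inv_sub {g h : GLI} (hg : InG g) (hh : InG h) :
    fn ((g⁻¹ : GLI).val - (h⁻¹ : GLI).val) = fn (g.val - h.val) := by
  rw [hg.inv_val, hh.inv_val]
  have e : J * (g.val)ᵀ * J - J * (h.val)ᵀ * J = J * (g.val - h.val)ᵀ * J := by
    rw [Matrix.transpose_sub, Matrix.mul_sub, Matrix.sub_mul]
  rw [e]
  unfold fn
  congr 1
  rw [Finset.sum_comm]
  refine Finset.sum_congr rfl (fun i _ => Finset.sum_congr rfl (fun j _ => ?_))
  set A := g.val - h.val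
  have : (J * Aᵀ * J) j i = J j j * A i j * J i i := by
    have hJ : ∀ a b, a ≠ b → J a b = 0 := by
      intro a b hab
      rcases a with a | a <;> rcases b with b | b
      · simp only [J, Matrix.fromBlocks_apply₁₁]
        exact Matrix.one_apply_ne (fun h => hab (by rw [h]))
      · simp [J]
      · simp [J]
      · exact absurd rfl hab
    rw [Matrix.mul_apply, Finset.sum_eq_single i]
    · rw [Matrix.mul_apply, Finset.sum_eq_single j]
      · rfl
      · intro b _ hb; rw [hJ j b (Ne.symm hb)]; simp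
      · simp
    · intro b _ hb; rw [hJ b i hb]; simp
    · simp
  rw [this]
  have hJ2 : ∀ a, J a a ^ 2 = 1 := by
    intro a
    rcases a with a | a
    · simp [J]
    · simp [J]
  calc (J j j * A i j * J i i) ^ 2 = J j j ^ 2 * A i j ^ 2 * J i i ^ 2 := by ring
    _ = A i j ^ 2 := by rw [hJ2, hJ2]; ring

theorem wd_snoc (a : Fin 3 → GLI) (l : List (Fin 3 × Bool)) (e : Fin 3 × Bool) :
    wd a (l ++ [e]) = wd a l * (if e.2 then a e.1 else (a e.1)⁻¹) := by
  unfold wd
  rw [List.map_append, List.prod_append]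
  simp

theorem wd_inG {a : Fin 3 → GLI} (ha : ∀ k, InG (a k)) (l : List (Fin 3 × Bool)) : InG (wd a l) := by
  unfold wd
  induction l with
  | nil => simpa using InG.one
  | cons e l ih =>
    rw [List.map_cons, List.prod_cons]
    refine InG.mul ?_ ih
    split_ifs
    · exact ha _
    · exact (ha _).inv

theorem fn_le_of_sub_one {A : Mat} (h : fn (A - 1) ≤ 1) : fn A ≤ 13 / 4 := by
  have e : A = (A - 1) + 1 := by abel
  rw [e]
  refine (fn_add _ _).trans ?_
  rw [fn_one]
  have : Real.sqrt 5 ≤ 9 / 4 := by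
    rw [Real.sqrt_le_left (by norm_num)]; norm_num
  linarith

theorem word_close_aux {a a' : Fin 3 → GLI} {r : ℝ}
    (ha : ∀ k, InG (a k)) (ha' : ∀ k, InG (a' k)) (h1 : ∀ k, fn ((a k).val - 1) ≤ 1)
    (hr : ∀ k, fn ((a k).val - (a' k).val) ≤ r) (l : List (Fin 3 × Bool))
    (hpre : ∀ l', l' <+: l → fn ((wd a l').val - 1) ≤ 1) :
    fn ((wd a' l * (wd a l)⁻¹ : GLI).val - 1) ≤ (1 + 35 * r) ^ l.length - 1 := by
  have hr0 : 0 ≤ r := (fn_nonneg _).trans (hr 0)
  induction l using List.reverseRecOn with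
  | nil => simp [wd, (fn_eq_zero (0 : Mat)).2 rfl]
  | append_singleton l e ih =>
    have ih' := ih (fun l' hl' => hpre l' (hl'.trans (List.prefix_append _ _)))
    set x : GLI := if e.2 then a e.1 else (a e.1)⁻¹ with hx
    set x' : GLI := if e.2 then a' e.1 else (a' e.1)⁻¹ with hx'
    have hxx : fn (x'.val - x.val) ≤ r := by
      rw [hx, hx']
      split_ifs
      · have := hr e.1
        rwa [← fn_neg, neg_sub]
      · rw [fn_inv_sub (ha' _) (ha _)]
        have := hr e.1
        rwa [← fn_neg, neg_sub]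
    have hxG : InG x := by
      rw [hx]; split_ifs
      · exact ha _
      · exact (ha _).inv
    have hx1 : fn x.val ≤ 13 / 4 := by
      rw [hx]
      split_ifs
      · exact fn_le_of_sub_one (h1 _)
      · rw [fn_inv_of_inG (ha _)]; exact fn_le_of_sub_one (h1 _)
    have hP := fn_le_of_sub_one (hpre l (List.prefix_append _ _))
    have hPG := wd_inG ha l
    set P := wd a l with hPdef
    set P' := wd a' l with hP'def
    rw [wd_snoc, wd_snoc, ← hx, ← hx', ← hPdef, ← hP'def]
    set E : Mat := P.val * (x'.val - x.val) * (x⁻¹ : GLI).val * (P⁻¹ : GLI).val with hE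
    have hEn : fn E ≤ 35 * r := by
      have e1 : fn E ≤ fn P.val * fn (x'.val - x.val) * fn (x⁻¹ : GLI).val * fn (P⁻¹ : GLI).val := by
        rw [hE]
        refine (fn_mul _ _).trans (mul_le_mul_of_nonneg_right ?_ (fn_nonneg _))
        refine (fn_mul _ _).trans (mul_le_mul_of_nonneg_right ?_ (fn_nonneg _))
        exact fn_mul _ _
      rw [fn_inv_of_inG hxG, fn_inv_of_inG hPG] at e1
      have h0 := fn_nonneg P.val
      have h0' := fn_nonneg x.val
      have h0'' := fn_nonneg (x'.val - x.val)
      calc fn E ≤ fn P.val * fn (x'.val - x.val) * fn x.val * fn P.val := e1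
        _ ≤ (13 / 4) * r * (13 / 4) * (13 / 4) := by gcongr
        _ ≤ 35 * r := by nlinarith
    set Q : Mat := (P' * P⁻¹ : GLI).val with hQ
    have hrec : (P' * x' * (P * x)⁻¹ : GLI).val - 1 = (Q - 1) + (Q - 1) * E + E := by
      have e1 : (P' * x' * (P * x)⁻¹ : GLI).val = Q * (1 + E) := by
        rw [hQ, hE]
        have h2 : (1 : Mat) + P.val * (x'.val - x.val) * (x⁻¹ : GLI).val * (P⁻¹ : GLI).val =
            (P * x' * x⁻¹ * P⁻¹ : GLI).val := by
          rw [mul_sub, sub_mul, sub_mul, ← Units.val_mul, ← Units.val_mul, ← Units.val_mul,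
            ← Units.val_mul, ← Units.val_mul, ← Units.val_mul]
          have : P * x * x⁻¹ * P⁻¹ = 1 := by group
          rw [this, Units.val_one]
          abel
        rw [h2, ← Units.val_mul]
        congr 1
        group
      rw [e1]
      noncomm_ring
    rw [hrec]
    have hE0 := fn_nonneg E
    calc fn ((Q - 1) + (Q - 1) * E + E) ≤ fn (Q - 1) + fn (Q - 1) * fn E + fn E := by
          refine (fn_add _ _).trans (add_le_add_left ((fn_add _ _).trans
            (add_le_add_right (fn_mul _ _) _)) _)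
      _ ≤ ((1 + 35 * r) ^ l.length - 1) + ((1 + 35 * r) ^ l.length - 1) * (35 * r) + 35 * r := by
          have := fn_nonneg (Q - 1)
          gcongr
          linarith
      _ = (1 + 35 * r) ^ (l ++ [e]).length - 1 := by
          rw [List.length_append, List.length_singleton, pow_succ]; ring

/-- [C1] Two words with close letters and bounded prefixes have close values. -/
theorem word_close {a a' : Fin 3 → GLI} {l : List (Fin 3 × Bool)} {r : ℝ}
    (ha : ∀ k, InG (a k)) (ha' : ∀ k, InG (a' k)) (h1 : ∀ k, fn ((a k).val - 1) ≤ 1)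
    (hpre : ∀ l', l' <+: l → fn ((wd a l').val - 1) ≤ 1)
    (hr : ∀ k, fn ((a k).val - (a' k).val) ≤ r) (hL : 100 * (l.length : ℝ) * r ≤ 1) :
    fn ((wd a l).val - (wd a' l).val) ≤ 1000 * (l.length : ℝ) * r := by
  have hr0 : 0 ≤ r := (fn_nonneg _).trans (hr 0)
  have h := word_close_aux ha ha' h1 hr l hpre
  have h2 : (1 + 35 * r) ^ l.length ≤ Real.exp (35 * l.length * r) := by
    have : 1 + 35 * r ≤ Real.exp (35 * r) := by
      have := Real.add_one_le_exp (35 * r); linarith
    calc (1 + 35 * r) ^ l.length ≤ (Real.exp (35 * r)) ^ l.length := by gcongr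
      _ = Real.exp (35 * l.length * r) := by rw [← Real.exp_nat_mul]; congr 1; ring
  have h3 : Real.exp (35 * l.length * r) ≤ 1 + 2 * (35 * l.length * r) := by
    have h0 : 0 ≤ 35 * (l.length : ℝ) * r := by positivity
    have h4 : |35 * (l.length : ℝ) * r| ≤ 1 := by rw [abs_of_nonneg h0]; linarith
    have := Real.abs_exp_sub_one_le h4
    rw [abs_of_nonneg h0] at this
    have := (abs_le.1 this).2
    linarith
  have hP := fn_le_of_sub_one (hpre l (List.prefix_refl l))
  have e : (wd a l).val - (wd a' l).val = -(((wd a' l * (wd a l)⁻¹ : GLI).val - 1) * (wd a l).val) := by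
    rw [sub_mul, ← Units.val_mul, one_mul, inv_mul_cancel_right, neg_sub]
  rw [e, fn_neg]
  have hb : fn ((wd a' l * (wd a l)⁻¹ : GLI).val - 1) ≤ 70 * l.length * r := by linarith
  have h0 : 0 ≤ (l.length : ℝ) * r := by positivity
  calc fn (((wd a' l * (wd a l)⁻¹ : GLI).val - 1) * (wd a l).val)
      ≤ fn ((wd a' l * (wd a l)⁻¹ : GLI).val - 1) * fn (wd a l).val := fn_mul _ _
    _ ≤ (70 * l.length * r) * (13 / 4) := by
        have := fn_nonneg (wd a l).val
        have := fn_nonneg ((wd a' l * (wd a l)⁻¹ : GLI).val - 1)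
        gcongr
    _ ≤ 1000 * (l.length : ℝ) * r := by nlinarith

end PC

end Pool.Agent.helper21.WB
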