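import Pool.Agent.helper47.WB.CM

/-! PART C, the code of a net. -/

set_option autoImplicit false
open Matrix MeasureTheory

namespace Pool.Agent.helper21.WB

namespace PC

variable {Γ Γ' : Subgroup GLI} {η D s R₁ : ℝ} {n : ℕ}

theorem sqrt5_le : Real.sqrt 5 ≤ 3 := by
  rw [Real.sqrt_le_left (by norm_num)]; norm_num

theorem _root_.Pool.Agent.helper21.WB.Net.finite_le (hΓ : Disc Γ) (N : Net Γ η D s R₁ n) (i j : Fin n) :
    {γ | γ ∈ Γ ∧ gd (N.p i) (γ * N.p j) ≤ D}.Finite := by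
  refine (finite_fn_le hΓ (fn (N.p i).val * (3 * Real.exp D) * fn (N.p j).val)).subset ?_
  rintro γ ⟨hγ, hg⟩
  refine ⟨hγ, ?_⟩
  rw [N.gd_eq_sz] at hg
  have hT : (N.p i)⁻¹ * γ * N.p j ∈ N.T i j := ⟨γ, hγ, rfl⟩
  have hf := fn_le_of_sz (N.T_inG hΓ hT) hg
  have e : γ.val = (N.p i).val * ((N.p i)⁻¹ * γ * N.p j).val * ((N.p j)⁻¹ : GLI).val := by
    rw [← Units.val_mul, ← Units.val_mul]
    congr 1
    group
  rw [e]
  refine (fn_mul _ _).trans ?_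
  rw [fn_inv_of_inG (N.mem j)]
  refine mul_le_mul_of_nonneg_right ((fn_mul _ _).trans ?_) (fn_nonneg _)
  exact mul_le_mul_of_nonneg_left hf (fn_nonneg _)

theorem _root_.Pool.Agent.helper21.WB.Net.E1_finite (hΓ : Disc Γ) (N : Net Γ η D s R₁ n) : N.E1.Finite := by
  have h : N.E1 ⊆ ⋃ i : Fin n, ⋃ j : Fin n,
      (fun γ => (i, j, γ)) '' {γ | γ ∈ Γ ∧ gd (N.p i) (γ * N.p j) ≤ D} := by
    rintro ⟨i, j, γ⟩ ⟨-, -, -, h4, h5, -⟩
    simp only [Set.mem_iUnion]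
    exact ⟨i, j, γ, ⟨h4, h5⟩, rfl⟩
  refine Set.Finite.subset ?_ h
  exact Set.finite_iUnion (fun i => Set.finite_iUnion (fun j => (N.finite_le hΓ i j).image _))

/-- the statement of Z6 (`small_words`) -/
def SmallWords : Prop := ∃ η₁ : ℝ, 0 < η₁ ∧ ∀ η : ℝ, 0 < η → η ≤ η₁ → ∃ η₀ C : ℝ, 0 < η₀ ∧ 0 < C ∧
    ∀ (Γ : Subgroup GLI), Disc Γ → ∀ (y : X) (s : ℝ), 0 < s → s ≤ 1 → (∀ γ ∈ Γ, γ ≠ 1 → s ≤ sm y γ) →
    ∃ a : Fin 3 → GLI, (∀ i, a i ∈ Γ ∧ sm y (a i) ≤ η) ∧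
      ∀ γ ∈ Γ, sm y γ ≤ η₀ → ∃ l : List (Fin 3 × Bool), (l.length : ℝ) ≤ C / s ^ 3 ∧
        (l.map (fun e => if e.2 then a e.1 else (a e.1)⁻¹)).prod = γ ∧
        ∀ l', l' <+: l → sm y (l'.map (fun e => if e.2 then a e.1 else (a e.1)⁻¹)).prod ≤ η

/-- generators for small elements, in the frame of a net point -/
theorem exists_words (small_words : SmallWords) : ∃ θ Cw : ℝ, 0 < θ ∧ 0 < Cw ∧ ∀ (Γ : Subgroup GLI), Disc Γ →
    ∀ (η D s R₁ : ℝ) (n : ℕ) (N : Net Γ η D s R₁ n), 0 < s → s ≤ 1 → ∀ i : Fin n,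
    ∃ a : Fin 3 → GLI, (∀ k, a k ∈ N.T i i) ∧ (∀ k, fn ((a k).val - 1) ≤ 1) ∧
      ∀ h ∈ N.T i i, fn (h.val - 1) ≤ θ → ∃ l : List (Fin 3 × Bool), (l.length : ℝ) ≤ Cw / s ^ 3 ∧
        wd a l = h ∧ ∀ l', l' <+: l → fn ((wd a l').val - 1) ≤ 1 := by
  obtain ⟨η₁, hη₁, H⟩ := small_words
  obtain ⟨θ, Cw, hθ, hCw, H⟩ := H (min η₁ 1) (lt_min hη₁ one_pos) (min_le_left _ _)
  refine ⟨θ, Cw, hθ, hCw, fun Γ hΓ η D s R₁ n N hs hs1 i => ?_⟩
  obtain ⟨a, ha, hw⟩ := H Γ hΓ (act (N.p i) 0) s hs hs1 (N.sep i)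
  have key : ∀ γ : GLI, sm (act (N.p i) 0) γ = fn (((N.p i)⁻¹ * γ * N.p i : GLI).val - 1) := by
    intro γ
    unfold sm
    rw [nrm_act (N.mem i)]
    congr 1
    rw [mul_sub, sub_mul, ← Units.val_mul, ← Units.val_mul, mul_one, ← Units.val_mul,
      inv_mul_cancel, Units.val_one]
  have hwd : ∀ l : List (Fin 3 × Bool), wd (fun k => (N.p i)⁻¹ * a k * N.p i) l =
      (N.p i)⁻¹ * (l.map (fun e => if e.2 then a e.1 else (a e.1)⁻¹)).prod * N.p i := by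
    intro l
    unfold wd
    induction l with
    | nil => simp
    | cons e l ih =>
      rw [List.map_cons, List.prod_cons, ih, List.map_cons, List.prod_cons]
      split_ifs <;> group
  refine ⟨fun k => (N.p i)⁻¹ * a k * N.p i, fun k => ⟨a k, (ha k).1, rfl⟩, fun k => ?_, ?_⟩
  · rw [← key]; exact (ha k).2.trans (min_le_right _ _)
  · intro h hh hθ'
    obtain ⟨γ, hγ, rfl⟩ := hh
    rw [← key] at hθ'
    obtain ⟨l, hl, hprod, hpre⟩ := hw γ hγ hθ'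
    refine ⟨l, hl, ?_, fun l' hl' => ?_⟩
    · rw [hwd, hprod]
    · rw [hwd, ← key]; exact (hpre l' hl').trans (min_le_right _ _)

/-- the choices made for a net -/
structure Data (N : Net Γ η D s R₁ n) (θ Lw : ℝ) (M₁ : ℕ) (f₁ : Mat → (I → I → Fin M₁)) where
  a : Fin n → Fin 3 → GLI
  ha : ∀ i k, a i k ∈ N.T i i
  ha1 : ∀ i k, fn ((a i k).val - 1) ≤ 1
  hw : ∀ i, ∀ h ∈ N.T i i, fn (h.val - 1) ≤ θ → ∃ l : List (Fin 3 × Bool), (l.length : ℝ) ≤ Lw ∧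
    wd (a i) l = h ∧ ∀ l', l' <+: l → fn ((wd (a i) l').val - 1) ≤ 1
  t : Fin n → Fin n → (I → I → Fin M₁) → Option GLI
  ht : ∀ i j c g, t i j c = some g → g ∈ N.T i j ∧ sz g ≤ D ∧ f₁ g.val = c
  ht' : ∀ i j, ∀ h ∈ N.T i j, sz h ≤ D → ∃ g, t i j (f₁ h.val) = some g

theorem exists_data (N : Net Γ η D s R₁ n) {θ Lw : ℝ} {M₁ : ℕ} (f₁ : Mat → (I → I → Fin M₁))
    (H : ∀ i : Fin n, ∃ a : Fin 3 → GLI, (∀ k, a k ∈ N.T i i) ∧ (∀ k, fn ((a k).val - 1) ≤ 1) ∧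
      ∀ h ∈ N.T i i, fn (h.val - 1) ≤ θ → ∃ l : List (Fin 3 × Bool), (l.length : ℝ) ≤ Lw ∧
        wd a l = h ∧ ∀ l', l' <+: l → fn ((wd a l').val - 1) ≤ 1) :
    Nonempty (Data N θ Lw M₁ f₁) := by
  classical
  choose a ha ha1 hw using H
  refine ⟨⟨a, ha, ha1, hw, fun i j c => if h : ∃ g, g ∈ N.T i j ∧ sz g ≤ D ∧ f₁ g.val = c then
    some h.choose else none, ?_, ?_⟩⟩
  · intro i j c g hg
    split_ifs at hg with h
    rw [Option.some_inj] at hg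
    rw [← hg]; exact h.choose_spec
  · intro i j h hh hD
    have hex : ∃ g, g ∈ N.T i j ∧ sz g ≤ D ∧ f₁ g.val = f₁ h.val := ⟨h, hh, hD, rfl⟩
    exact ⟨hex.choose, by rw [dif_pos hex]⟩

/-- labels of bad pairs -/
abbrev Val (M₁ M₂ : ℕ) : Type :=
  ((I → I → Fin M₁) → Option (I → I → Fin M₂)) × (Fin 3 → (I → I → Fin M₂))

/-- the label of a pair -/
def Data.val {N : Net Γ η D s R₁ n} {θ Lw : ℝ} {M₁ M₂ : ℕ} {f₁ : Mat → (I → I → Fin M₁)}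
    (d : Data N θ Lw M₁ f₁) (f₂ : Mat → (I → I → Fin M₂)) (i j : Fin n) : Val M₁ M₂ :=
  (fun c => (d.t i j c).map (fun g => f₂ g.val), fun k => f₂ (d.a i k).val)

open Classical in
/-- the code of the bad pairs -/
noncomputable def Data.codeB {N : Net Γ η D s R₁ n} {θ Lw : ℝ} {M₁ M₂ : ℕ}
    {f₁ : Mat → (I → I → Fin M₁)} (d : Data N θ Lw M₁ f₁) (f₂ : Mat → (I → I → Fin M₂)) :
    Finset (Fin n × Fin n × Val M₁ M₂) :=
  N.B.toFinite.toFinset.image (fun e => (e.1, e.2, d.val f₂ e.1 e.2))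

open Classical in
/-- the code of the good edges -/
noncomputable def _root_.Pool.Agent.helper21.WB.Net.codeE (N : Net Γ η D s R₁ n) (hΓ : Disc Γ) {M₃ : ℕ}
    (f₃ : Mat → (I → I → Fin M₃)) : Finset (Fin n × Fin n × (I → I → Fin M₃)) :=
  (N.E1_finite hΓ).toFinset.image
    (fun e => (e.1, e.2.1, f₃ ((N.p e.1)⁻¹ * e.2.2 * N.p e.2.1 : GLI).val))

theorem Data.card_codeB {N : Net Γ η D s R₁ n} {θ Lw : ℝ} {M₁ M₂ : ℕ}
    {f₁ : Mat → (I → I → Fin M₁)} (d : Data N θ Lw M₁ f₁) (f₂ : Mat → (I → I → Fin M₂)) :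
    (d.codeB f₂).card ≤ N.B.ncard := by
  classical
  unfold Data.codeB
  refine Finset.card_image_le.trans ?_
  rw [← Set.ncard_eq_toFinset_card N.B]

theorem _root_.Pool.Agent.helper21.WB.Net.card_codeE (N : Net Γ η D s R₁ n) (hΓ : Disc Γ) {M₃ : ℕ}
    (f₃ : Mat → (I → I → Fin M₃)) : (N.codeE hΓ f₃).card ≤ N.E1.ncard := by
  unfold Net.codeE
  refine Finset.card_image_le.trans ?_
  rw [← Set.ncard_eq_toFinset_card N.E1 (N.E1_finite hΓ)]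

theorem match_of_code {N : Net Γ η D s R₁ n} {N' : Net Γ' η D s R₁ n} {θ Lw r₀ r : ℝ}
    (hΓ : Disc Γ) (hΓ' : Disc Γ') (hD : 1 ≤ D) {M₁ M₂ M₃ : ℕ}
    {f₁ : Mat → (I → I → Fin M₁)} {f₂ : Mat → (I → I → Fin M₂)} {f₃ : Mat → (I → I → Fin M₃)}
    (hf₁ : ∀ A B : Mat, (∀ i j, |A i j| ≤ 3 * Real.exp D) → (∀ i j, |B i j| ≤ 3 * Real.exp D) →
      f₁ A = f₁ B → fn (A - B) ≤ θ / (3 * Real.exp D))
    (hf₂ : ∀ A B : Mat, (∀ i j, |A i j| ≤ 3 * Real.exp D) → (∀ i j, |B i j| ≤ 3 * Real.exp D) →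
      f₂ A = f₂ B → fn (A - B) ≤ r)
    (hf₃ : ∀ A B : Mat, (∀ i j, |A i j| ≤ 3 * Real.exp D) → (∀ i j, |B i j| ≤ 3 * Real.exp D) →
      f₃ A = f₃ B → fn (A - B) ≤ r₀)
    (d : Data N θ Lw M₁ f₁) (d' : Data N' θ Lw M₁ f₁)
    (h1 : N.good = N'.good) (h2 : N.codeE hΓ f₃ = N'.codeE hΓ' f₃) (h3 : d.codeB f₂ = d'.codeB f₂) :
    Match N N' r₀ r θ Lw := by
  classical
  have bnd : ∀ {i j : Fin n} {h : GLI}, h ∈ N.T i j → sz h ≤ D → ∀ k l, |h.val k l| ≤ 3 * Real.exp D :=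
    fun hh hs k l => (abs_entry_le_fn _ _ _).trans (fn_le_of_sz (N.T_inG hΓ hh) hs)
  have bnd' : ∀ {i j : Fin n} {h : GLI}, h ∈ N'.T i j → sz h ≤ D → ∀ k l, |h.val k l| ≤ 3 * Real.exp D :=
    fun hh hs k l => (abs_entry_le_fn _ _ _).trans (fn_le_of_sz (N'.T_inG hΓ' hh) hs)
  have bnd1 : ∀ {g : GLI}, fn (g.val - 1) ≤ 1 → ∀ k l, |g.val k l| ≤ 3 * Real.exp D := by
    intro g hg k l
    have e : g.val = (g.val - 1) + 1 := by abel
    have h0 : fn g.val ≤ 4 := by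
      rw [e]
      refine (fn_add _ _).trans ?_
      rw [fn_one]
      linarith [sqrt5_le]
    have h1 : (2:ℝ) ≤ Real.exp D := by
      have := Real.add_one_le_exp D
      linarith
    exact (abs_entry_le_fn _ _ _).trans (by linarith)
  -- equality of labels on the bad pairs
  have hval : ∀ i j, (i, j) ∈ N.B → d.val f₂ i j = d'.val f₂ i j := by
    intro i j hij
    have hm : (i, j, d.val f₂ i j) ∈ d.codeB f₂ := by
      unfold Data.codeB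
      rw [Finset.mem_image]
      exact ⟨(i, j), by simpa using hij, rfl⟩
    rw [h3] at hm
    unfold Data.codeB at hm
    rw [Finset.mem_image] at hm
    obtain ⟨⟨i', j'⟩, -, he⟩ := hm
    simp only [Prod.mk.injEq] at he
    obtain ⟨rfl, rfl, he⟩ := he
    exact he.symm
  refine ⟨h1, ?_, ?_, ?_⟩
  · intro i j γ hE
    have hm : (i, j, f₃ ((N.p i)⁻¹ * γ * N.p j : GLI).val) ∈ N.codeE hΓ f₃ := by
      unfold Net.codeE
      rw [Finset.mem_image]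
      exact ⟨(i, j, γ), by simpa using hE, rfl⟩
    rw [h2] at hm
    unfold Net.codeE at hm
    rw [Finset.mem_image] at hm
    obtain ⟨⟨i', j', γ'⟩, hE', he⟩ := hm
    simp only [Prod.mk.injEq] at he
    obtain ⟨rfl, rfl, he⟩ := he
    have hE'' : (i', j', γ') ∈ N'.E1 := by simpa using hE'
    obtain ⟨-, -, -, hγ, hg, -⟩ := hE
    obtain ⟨-, -, -, hγ', hg', -⟩ := hE''
    simp only at hγ hγ' hg hg'
    rw [N.gd_eq_sz] at hg
    rw [N'.gd_eq_sz] at hg'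
    refine ⟨_, ⟨γ', hγ', rfl⟩, hf₃ _ _ (bnd ⟨γ, hγ, rfl⟩ hg) (bnd' ⟨γ', hγ', rfl⟩ hg') he.symm⟩
  · intro i j hi h hh hD'
    have hB : (i, j) ∈ N.B := by
      obtain ⟨γ, hγ, rfl⟩ := hh
      exact ⟨Or.inl hi, γ, hγ, by rw [N.gd_eq_sz]; exact hD'⟩
    obtain ⟨g, hg⟩ := d.ht' i j h hh hD'
    obtain ⟨hgT, hgD, hgc⟩ := d.ht i j _ g hg
    have hv := congrFun (congrArg Prod.fst (hval i j hB)) (f₁ h.val)
    simp only [Data.val, hg, Option.map_some] at hv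
    obtain ⟨g', hg', hgg⟩ := Option.map_eq_some_iff.1 hv.symm
    obtain ⟨hgT', hgD', -⟩ := d'.ht i j _ g' hg'
    exact ⟨g, hgT, g', hgT', hgD, hf₁ _ _ (bnd hh hD') (bnd hgT hgD) hgc.symm,
      hf₂ _ _ (bnd hgT hgD) (bnd' hgT' hgD') hgg.symm⟩
  · intro i hi
    have hB : (i, i) ∈ N.B := by
      refine ⟨Or.inl hi, 1, Γ.one_mem, ?_⟩
      rw [N.gd_eq_sz]
      have : (N.p i)⁻¹ * 1 * N.p i = 1 := by group
      rw [this]
      have : sz 1 = 0 := by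
        unfold sz
        have : (1 : GLI).val o o = Real.cosh 0 := by simp
        rw [this, Real.arcosh_cosh le_rfl]
      rw [this]; linarith
    have hv := congrArg Prod.snd (hval i i hB)
    simp only [Data.val] at hv
    refine ⟨d.a i, d'.a i, d.ha i, d'.ha i, d.ha1 i, fun k => ?_, d.hw i⟩
    exact hf₂ _ _ (bnd1 (d.ha1 i k)) (bnd1 (d'.ha1 i k)) (congrFun hv k)

end PC

end Pool.Agent.helper21.WB
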