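import Pool.Agent.helper47.WB.C1

/-! PART C, matching: closeness of two nets from matching data. -/

set_option autoImplicit false
open Matrix MeasureTheory

namespace Pool.Agent.helper21.WB

namespace PC

/-- size of a relative position -/
noncomputable def sz (h : GLI) : ℝ := Real.arcosh (h.val o o)

theorem one_le_oo {h : GLI} (hh : InG h) : 1 ≤ h.val o o := by
  have e := bl_col hh.1
  rw [bl_apply] at e
  have h0 : 0 ≤ ∑ i : Fin 4, h.val (Sum.inl i) o * h.val (Sum.inl i) o :=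
    Finset.sum_nonneg (fun i _ => mul_self_nonneg _)
  have h2 := hh.2
  nlinarith

theorem inv_oo {h : GLI} (hh : InG h) : (h⁻¹ : GLI).val o o = h.val o o := by
  rw [hh.inv_val]
  simp [J, Matrix.mul_apply, Fintype.sum_sum_type]

theorem sz_inv {h : GLI} (hh : InG h) : sz h⁻¹ = sz h := by
  unfold sz; rw [inv_oo hh]

theorem sz_nonneg {h : GLI} (hh : InG h) : 0 ≤ sz h := Real.arcosh_nonneg (one_le_oo hh)

theorem cosh_sz {h : GLI} (hh : InG h) : Real.cosh (sz h) = h.val o o :=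
  Real.cosh_arcosh (one_le_oo hh)

/-- the bound for the norm of relative positions of size at most `D` -/
theorem fn_le_of_sz {h : GLI} (hh : InG h) {D : ℝ} (hD : sz h ≤ D) :
    fn h.val ≤ 3 * Real.exp D := by
  have h0 := sz_nonneg hh
  have h1 := cosh_sz hh
  have h2 : Real.cosh (sz h) ≤ Real.exp D := by
    have : Real.cosh (sz h) ≤ Real.exp (sz h) := by
      rw [Real.cosh_eq]
      have : Real.exp (-(sz h)) ≤ Real.exp (sz h) := Real.exp_le_exp.2 (by linarith)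
      linarith
    exact this.trans (Real.exp_le_exp.2 hD)
  have h3 : (1:ℝ) ≤ Real.exp D := Real.one_le_exp (h0.trans hD)
  have h4 := fn_sq_of_inG hh
  rw [← h1] at h4
  have h5 : fn h.val ^ 2 ≤ (3 * Real.exp D) ^ 2 := by
    rw [h4]
    have : Real.cosh (sz h) ^ 2 ≤ Real.exp D ^ 2 := by
      have := Real.cosh_pos (sz h)
      gcongr
    nlinarith
  have := abs_le_of_sq_le_sq h5 (by positivity)
  exact (abs_le.1 this).2

variable {Γ Γ' : Subgroup GLI} {η D s R₁ : ℝ} {n : ℕ}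

/-- the relative positions of two orbits -/
def _root_.Pool.Agent.helper21.WB.Net.T (N : Net Γ η D s R₁ n) (i j : Fin n) : Set GLI :=
  {h | ∃ γ ∈ Γ, h = (N.p i)⁻¹ * γ * N.p j}

theorem _root_.Pool.Agent.helper21.WB.Net.T_inG (hΓ : Disc Γ) (N : Net Γ η D s R₁ n) {i j : Fin n} {h : GLI}
    (hh : h ∈ N.T i j) : InG h := by
  obtain ⟨γ, hγ, rfl⟩ := hh
  exact ((N.mem i).inv.mul (hΓ.inG γ hγ)).mul (N.mem j)

theorem _root_.Pool.Agent.helper21.WB.Net.T_one (N : Net Γ η D s R₁ n) (i : Fin n) : (1 : GLI) ∈ N.T i i :=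
  ⟨1, Γ.one_mem, by group⟩

theorem _root_.Pool.Agent.helper21.WB.Net.T_mul (N : Net Γ η D s R₁ n) {i j k : Fin n} {g h : GLI}
    (hg : g ∈ N.T i j) (hh : h ∈ N.T j k) : g * h ∈ N.T i k := by
  obtain ⟨γ, hγ, rfl⟩ := hg
  obtain ⟨δ, hδ, rfl⟩ := hh
  exact ⟨γ * δ, Γ.mul_mem hγ hδ, by group⟩

theorem _root_.Pool.Agent.helper21.WB.Net.T_inv (N : Net Γ η D s R₁ n) {i j : Fin n} {h : GLI}
    (hh : h ∈ N.T i j) : h⁻¹ ∈ N.T j i := by
  obtain ⟨γ, hγ, rfl⟩ := hh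
  exact ⟨γ⁻¹, Γ.inv_mem hγ, by group⟩

theorem _root_.Pool.Agent.helper21.WB.Net.gd_eq_sz (N : Net Γ η D s R₁ n) (i j : Fin n) (γ : GLI) :
    gd (N.p i) (γ * N.p j) = sz ((N.p i)⁻¹ * γ * N.p j) := by
  unfold gd gch sz
  rw [mul_assoc]

theorem _root_.Pool.Agent.helper21.WB.Net.B_symm (hΓ : Disc Γ) (N : Net Γ η D s R₁ n) {i j : Fin n} (h : (i, j) ∈ N.B) :
    (j, i) ∈ N.B := by
  obtain ⟨h1, γ, hγ, h2⟩ := h
  refine ⟨h1.symm, γ⁻¹, Γ.inv_mem hγ, ?_⟩
  rw [N.gd_eq_sz] at h2 ⊢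
  have hT : (N.p i)⁻¹ * γ * N.p j ∈ N.T i j := ⟨γ, hγ, rfl⟩
  have e : (N.p j)⁻¹ * γ⁻¹ * N.p i = ((N.p i)⁻¹ * γ * N.p j)⁻¹ := by group
  rw [e, sz_inv (N.T_inG hΓ hT)]
  exact h2

/-- the matching data for the ordered pair `(N, N')` -/
structure Match (N : Net Γ η D s R₁ n) (N' : Net Γ' η D s R₁ n) (r₀ r θ Lw : ℝ) : Prop where
  good : N.good = N'.good
  edge : ∀ i j γ, (i, j, γ) ∈ N.E1 → ∃ h' ∈ N'.T i j,
    fn (((N.p i)⁻¹ * γ * N.p j).val - h'.val) ≤ r₀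
  cell : ∀ i j, i ∉ N.good → ∀ h ∈ N.T i j, sz h ≤ D → ∃ t ∈ N.T i j, ∃ t' ∈ N'.T i j,
    sz t ≤ D ∧ fn (h.val - t.val) ≤ θ / (3 * Real.exp D) ∧ fn (t.val - t'.val) ≤ r
  word : ∀ i, i ∉ N.good → ∃ a a' : Fin 3 → GLI, (∀ k, a k ∈ N.T i i) ∧ (∀ k, a' k ∈ N'.T i i) ∧
    (∀ k, fn ((a k).val - 1) ≤ 1) ∧ (∀ k, fn ((a k).val - (a' k).val) ≤ r) ∧
    ∀ h ∈ N.T i i, fn (h.val - 1) ≤ θ → ∃ l : List (Fin 3 × Bool), (l.length : ℝ) ≤ Lw ∧
      wd a l = h ∧ ∀ l', l' <+: l → fn ((wd a l').val - 1) ≤ 1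

theorem wd_mem (N : Net Γ η D s R₁ n) {i : Fin n} {a : Fin 3 → GLI} (ha : ∀ k, a k ∈ N.T i i)
    (l : List (Fin 3 × Bool)) : wd a l ∈ N.T i i := by
  unfold wd
  induction l with
  | nil => simpa using N.T_one i
  | cons e l ih =>
    rw [List.map_cons, List.prod_cons]
    refine N.T_mul ?_ ih
    split_ifs
    · exact ha _
    · exact N.T_inv (ha _)

theorem Match.bad {N : Net Γ η D s R₁ n} {N' : Net Γ' η D s R₁ n} {r₀ r θ Lw : ℝ}
    (hΓ : Disc Γ) (hΓ' : Disc Γ') (hr : 0 ≤ r)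
    (hLw : 0 ≤ Lw) (hL : 100 * Lw * r ≤ 1) (M : Match N N' r₀ r θ Lw) {i j : Fin n} (hi : i ∉ N.good)
    {h : GLI} (hh : h ∈ N.T i j) (hD' : sz h ≤ D) :
    ∃ h' ∈ N'.T i j, fn (h.val - h'.val) ≤ 3 * Real.exp D * (1000 * Lw * r) + 20 * r := by
  obtain ⟨t, ht, t', ht', htD, htc, htr⟩ := M.cell i j hi h hh hD'
  obtain ⟨a, a', ha, ha', ha1, har, hw⟩ := M.word i hi
  have htG := N.T_inG hΓ ht
  have hR : (0:ℝ) < 3 * Real.exp D := by positivity
  have htfn := fn_le_of_sz htG htD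
  -- the small element
  have hx : h * t⁻¹ ∈ N.T i i := N.T_mul hh (N.T_inv ht)
  have hx1 : fn ((h * t⁻¹ : GLI).val - 1) ≤ θ := by
    have e : (h * t⁻¹ : GLI).val - 1 = (h.val - t.val) * (t⁻¹ : GLI).val := by
      rw [sub_mul, ← Units.val_mul, ← Units.val_mul, mul_inv_cancel, Units.val_one]
    rw [e]
    calc fn ((h.val - t.val) * (t⁻¹ : GLI).val) ≤ fn (h.val - t.val) * fn (t⁻¹ : GLI).val := fn_mul _ _
      _ ≤ θ / (3 * Real.exp D) * (3 * Real.exp D) := by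
          rw [fn_inv_of_inG htG]
          exact mul_le_mul htc htfn (fn_nonneg _) ((fn_nonneg _).trans htc)
      _ = θ := by field_simp
  obtain ⟨l, hl, hlw, hpre⟩ := hw _ hx hx1
  have hLr : 100 * (l.length : ℝ) * r ≤ 1 := by
    refine le_trans ?_ hL
    gcongr
  have hc := word_close (fun k => N.T_inG hΓ (ha k)) (fun k => N'.T_inG hΓ' (ha' k)) ha1 hpre har hLr
  rw [hlw] at hc
  refine ⟨wd a' l * t', N'.T_mul (wd_mem N' ha' l) ht', ?_⟩
  have hx2 : fn (h * t⁻¹ : GLI).val ≤ 4 := by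
    have h1 := hpre l (List.prefix_refl l)
    rw [hlw] at h1
    have e : (h * t⁻¹ : GLI).val = ((h * t⁻¹ : GLI).val - 1) + 1 := by abel
    rw [e]
    refine (fn_add _ _).trans ?_
    rw [fn_one]
    have : Real.sqrt 5 ≤ 3 := by
      rw [Real.sqrt_le_left (by norm_num)]; norm_num
    linarith
  have hw' : fn (wd a' l).val ≤ 20 := by
    have e : (wd a' l).val = (h * t⁻¹ : GLI).val - ((h * t⁻¹ : GLI).val - (wd a' l).val) := by abel
    rw [e]
    refine (fn_sub _ _).trans ?_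
    have : 1000 * (l.length : ℝ) * r ≤ 10 := by linarith
    linarith
  have e : h.val - (wd a' l * t' : GLI).val =
      ((h * t⁻¹ : GLI).val - (wd a' l).val) * t.val + (wd a' l).val * (t.val - t'.val) := by
    rw [sub_mul, mul_sub, ← Units.val_mul, ← Units.val_mul, ← Units.val_mul]
    rw [inv_mul_cancel_right]
    abel
  rw [e]
  calc fn (((h * t⁻¹ : GLI).val - (wd a' l).val) * t.val + (wd a' l).val * (t.val - t'.val))
      ≤ fn ((h * t⁻¹ : GLI).val - (wd a' l).val) * fn t.val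
        + fn (wd a' l).val * fn (t.val - t'.val) :=
        (fn_add _ _).trans (add_le_add (fn_mul _ _) (fn_mul _ _))
    _ ≤ (1000 * Lw * r) * (3 * Real.exp D) + 20 * r := by
        have h1 : fn ((h * t⁻¹ : GLI).val - (wd a' l).val) ≤ 1000 * Lw * r := by
          refine hc.trans ?_
          gcongr
        have h2 := fn_nonneg (t.val)
        have h3 := fn_nonneg (t.val - t'.val)
        gcongr
    _ = 3 * Real.exp D * (1000 * Lw * r) + 20 * r := by ring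

theorem Match.any {N : Net Γ η D s R₁ n} {N' : Net Γ' η D s R₁ n} {r₀ r θ Lw : ℝ}
    (hΓ : Disc Γ) (hΓ' : Disc Γ') (hr : 0 ≤ r)
    (hLw : 0 ≤ Lw) (hL : 100 * Lw * r ≤ 1) (M : Match N N' r₀ r θ Lw) {i j : Fin n}
    (hi : i ∉ N.good ∨ j ∉ N.good)
    {h : GLI} (hh : h ∈ N.T i j) (hD' : sz h ≤ D) :
    ∃ h' ∈ N'.T i j, fn (h.val - h'.val) ≤ 3 * Real.exp D * (1000 * Lw * r) + 20 * r := by
  by_cases hi' : i ∉ N.good
  · exact M.bad hΓ hΓ' hr hLw hL hi' hh hD'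
  · have hj : j ∉ N.good := hi.resolve_left hi'
    have hG := N.T_inG hΓ hh
    obtain ⟨h', hh', hf⟩ := M.bad hΓ hΓ' hr hLw hL hj (N.T_inv hh) (by rw [sz_inv hG]; exact hD')
    have hG' := N'.T_inG hΓ' hh'
    refine ⟨h'⁻¹, N'.T_inv hh', ?_⟩
    have e := fn_inv_sub hG.inv hG'
    rw [inv_inv] at e
    rw [e]; exact hf

theorem Match.gg {N : Net Γ η D s R₁ n} {N' : Net Γ' η D s R₁ n} {r₀ r θ Lw : ℝ}
    (hΓ : Disc Γ) (hΓ' : Disc Γ') (hr : 0 ≤ r) (hD : 0 ≤ D) (hR : D ≤ R₁)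
    (hLw : 0 ≤ Lw) (hL : 100 * Lw * r ≤ 1) (M : Match N N' r₀ r θ Lw)
    (hb : 3 * Real.exp D * (1000 * Lw * r) + 20 * r ≤ r₀) (m : ℕ)
    (hm : (9 * Real.exp D) ^ m * r₀ ≤ 1) {i j : Fin n} (hi : i ∈ N.good) (hj : j ∈ N.good)
    {h : GLI} (hh : h ∈ N.T i j) (hD' : sz h ≤ D) (hsz : sz h < m / 20) :
    ∃ h' ∈ N'.T i j, fn (h.val - h'.val) ≤ (9 * Real.exp D) ^ m * r₀ := by
  have hr0 : 0 ≤ r₀ := le_trans (by positivity) hb
  have hE1 : (1:ℝ) ≤ Real.exp D := Real.one_le_exp hD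
  induction m generalizing i j h with
  | zero =>
    exfalso
    have := sz_nonneg (N.T_inG hΓ hh)
    simp at hsz
    linarith
  | succ m ih =>
    have hm' : (9 * Real.exp D) ^ m * r₀ ≤ (9 * Real.exp D) ^ (m + 1) * r₀ := by
      have : (9 * Real.exp D) ^ m ≤ (9 * Real.exp D) ^ (m + 1) :=
        pow_le_pow_right₀ (by linarith) (Nat.le_succ m)
      gcongr
    have hm1 : (9 * Real.exp D) ^ m * r₀ ≤ 1 := hm'.trans hm
    have hr0m : r₀ ≤ (9 * Real.exp D) ^ m * r₀ := by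
      have : (1:ℝ) ≤ (9 * Real.exp D) ^ m := one_le_pow₀ (by linarith)
      nlinarith
    -- the case `i < j`
    have key : ∀ i j : Fin n, i ∈ N.good → j ∈ N.good → i < j → ∀ h : GLI, h ∈ N.T i j → sz h ≤ D →
        sz h < ((m + 1 : ℕ) : ℝ) / 20 →
        ∃ h' ∈ N'.T i j, fn (h.val - h'.val) ≤ (9 * Real.exp D) ^ (m + 1) * r₀ := by
      intro i j hi hj hij h hh hD' hsz
      obtain ⟨γ, hγ, rfl⟩ := hh
      by_cases hE : (i, j, γ) ∈ N.E1
      · obtain ⟨h', hh', hf⟩ := M.edge i j γ hE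
        exact ⟨h', hh', hf.trans (hr0m.trans hm')⟩
      · have hE' : ∃ k, ∃ δ ∈ Γ, gd (N.p i) (δ * N.p k) ≤ gd (N.p i) (γ * N.p j) - 1 / 20 ∧
            gd (δ * N.p k) (γ * N.p j) ≤ gd (N.p i) (γ * N.p j) - 1 / 20 := by
          by_contra hcon
          exact hE ⟨hi, hj, hij, hγ, by rw [N.gd_eq_sz]; exact hD', hcon⟩
        obtain ⟨k, δ, hδ, h1, h2⟩ := hE'
        have e2 : gd (δ * N.p k) (γ * N.p j) = sz ((N.p k)⁻¹ * (δ⁻¹ * γ) * N.p j) := by
          unfold gd gch sz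
          congr 3
          group
        rw [e2, N.gd_eq_sz] at h2
        rw [N.gd_eq_sz, N.gd_eq_sz] at h1
        set g1 := (N.p i)⁻¹ * δ * N.p k with hg1
        set g2 := (N.p k)⁻¹ * (δ⁻¹ * γ) * N.p j with hg2
        have hT1 : g1 ∈ N.T i k := ⟨δ, hδ, rfl⟩
        have hT2 : g2 ∈ N.T k j := ⟨δ⁻¹ * γ, Γ.mul_mem (Γ.inv_mem hδ) hγ, rfl⟩
        have hprod : (N.p i)⁻¹ * γ * N.p j = g1 * g2 := by rw [hg1, hg2]; group
        have hs1 : sz g1 < (m : ℝ) / 20 := by push_cast at hsz; linarith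
        have hs2 : sz g2 < (m : ℝ) / 20 := by push_cast at hsz; linarith
        have hD1 : sz g1 ≤ D := by linarith
        have hD2 : sz g2 ≤ D := by linarith
        have c1 : ∃ h' ∈ N'.T i k, fn (g1.val - h'.val) ≤ (9 * Real.exp D) ^ m * r₀ := by
          by_cases hk : k ∈ N.good
          · exact ih hm1 hi hk hT1 hD1 hs1
          · obtain ⟨h', hh', hf⟩ := M.any hΓ hΓ' hr hLw hL (Or.inr hk) hT1 hD1
            exact ⟨h', hh', hf.trans (hb.trans hr0m)⟩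
        have c2 : ∃ h' ∈ N'.T k j, fn (g2.val - h'.val) ≤ (9 * Real.exp D) ^ m * r₀ := by
          by_cases hk : k ∈ N.good
          · exact ih hm1 hk hj hT2 hD2 hs2
          · obtain ⟨h', hh', hf⟩ := M.any hΓ hΓ' hr hLw hL (Or.inl hk) hT2 hD2
            exact ⟨h', hh', hf.trans (hb.trans hr0m)⟩
        obtain ⟨h1', hh1', hf1⟩ := c1
        obtain ⟨h2', hh2', hf2⟩ := c2
        refine ⟨h1' * h2', N'.T_mul hh1' hh2', ?_⟩
        rw [hprod]
        have e : (g1 * g2 : GLI).val - (h1' * h2' : GLI).val =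
            (g1.val - h1'.val) * g2.val + h1'.val * (g2.val - h2'.val) := by
          rw [sub_mul, mul_sub, ← Units.val_mul, ← Units.val_mul, ← Units.val_mul]
          abel
        rw [e]
        have b2 := fn_le_of_sz (N.T_inG hΓ hT2) hD2
        have b1 := fn_le_of_sz (N.T_inG hΓ hT1) hD1
        have b1' : fn h1'.val ≤ 3 * Real.exp D + 1 := by
          have e : h1'.val = g1.val - (g1.val - h1'.val) := by abel
          rw [e]
          exact (fn_sub _ _).trans (add_le_add b1 (hf1.trans hm1))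
        set E := (9 * Real.exp D) ^ m * r₀ with hEdef
        have hE0 : 0 ≤ E := by positivity
        calc fn ((g1.val - h1'.val) * g2.val + h1'.val * (g2.val - h2'.val))
            ≤ fn (g1.val - h1'.val) * fn g2.val + fn h1'.val * fn (g2.val - h2'.val) :=
              (fn_add _ _).trans (add_le_add (fn_mul _ _) (fn_mul _ _))
          _ ≤ E * (3 * Real.exp D) + (3 * Real.exp D + 1) * E := by
              have h1 := fn_nonneg g2.val
              have h2 := fn_nonneg (g2.val - h2'.val)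
              gcongr
          _ ≤ (9 * Real.exp D) ^ (m + 1) * r₀ := by
              have : (9 * Real.exp D) ^ (m + 1) * r₀ = 9 * Real.exp D * E := by
                rw [hEdef, pow_succ]; ring
              rw [this]
              nlinarith
    rcases lt_trichotomy i j with hij | hij | hij
    · exact key i j hi hj hij h hh hD' hsz
    · subst hij
      obtain ⟨γ, hγ, rfl⟩ := hh
      by_cases h1 : γ = 1
      · subst h1
        refine ⟨1, N'.T_one i, ?_⟩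
        have : (N.p i)⁻¹ * 1 * N.p i = 1 := by group
        rw [this, sub_self, (fn_eq_zero 0).2 rfl]
        positivity
      · exfalso
        have := N.thick i hi γ hγ h1
        rw [N.gd_eq_sz] at this
        linarith
    · have hG := N.T_inG hΓ hh
      obtain ⟨h', hh', hf⟩ := key j i hj hi hij h⁻¹ (N.T_inv hh) (by rw [sz_inv hG]; exact hD')
        (by rw [sz_inv hG]; exact hsz)
      have hG' := N'.T_inG hΓ' hh'
      refine ⟨h'⁻¹, N'.T_inv hh', ?_⟩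
      have e := fn_inv_sub hG.inv hG'
      rw [inv_inv] at e
      rw [e]; exact hf

/-- closeness from matching data -/
theorem Match.closeTo {N : Net Γ η D s R₁ n} {N' : Net Γ' η D s R₁ n} {r₀ r θ Lw ρ ρb : ℝ}
    (hΓ : Disc Γ) (hΓ' : Disc Γ') (hr : 0 ≤ r) (hD : 0 ≤ D) (hR : D ≤ R₁)
    (hLw : 0 ≤ Lw) (hL : 100 * Lw * r ≤ 1) (M : Match N N' r₀ r θ Lw)
    (hb : 3 * Real.exp D * (1000 * Lw * r) + 20 * r ≤ r₀)
    (hb' : 3 * Real.exp D * (1000 * Lw * r) + 20 * r ≤ ρb) (m : ℕ) (hm0 : 20 * D < m)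
    (hm : (9 * Real.exp D) ^ m * r₀ ≤ 1) (hm' : (9 * Real.exp D) ^ m * r₀ ≤ ρ) :
    CloseTo N N' ρ ρb := by
  refine ⟨M.good, fun i j γ hγ hg => ?_⟩
  rw [N.gd_eq_sz] at hg
  by_cases hij : i ∈ N.good ∧ j ∈ N.good
  · obtain ⟨h', ⟨γ', hγ', rfl⟩, hf⟩ := M.gg hΓ hΓ' hr hD hR hLw hL hb m hm hij.1 hij.2
      (h := (N.p i)⁻¹ * γ * N.p j) ⟨γ, hγ, rfl⟩ hg (by linarith)
    exact ⟨γ', hγ', Or.inr ⟨hij.1, hij.2, hf.trans hm'⟩⟩
  · have hij' : i ∉ N.good ∨ j ∉ N.good := by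
      by_contra hcon
      push Not at hcon
      exact hij hcon
    obtain ⟨h', ⟨γ', hγ', rfl⟩, hf⟩ := M.any hΓ hΓ' hr hLw hL hij'
      (h := (N.p i)⁻¹ * γ * N.p j) ⟨γ, hγ, rfl⟩ hg
    exact ⟨γ', hγ', Or.inl (hf.trans hb')⟩

end PC

end Pool.Agent.helper21.WB
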